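import Pool.Agent.Helper46.C2.St

/-!
# Project C2 (MP_b3ce06_al), module NUM: inequalities between numbers
-/

set_option autoImplicit false

namespace Pool.Agent.Helper80.C2

open Pool.Agent.Helper46.C2

lemma rho_even (r h : ℕ) (hr : r * (r - 1) + 2 ≤ h * h) : r ≤ h := by
  by_contra hc
  push Not at hc
  obtain ⟨s, rfl⟩ : ∃ s, r = h + 1 + s := ⟨r - (h + 1), by omega⟩
  have h1 : h + 1 + s - 1 = h + s := by omega
  rw [h1] at hr
  nlinarith [Nat.zero_le (h * s), Nat.zero_le (s * s), Nat.zero_le (s * h)]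

lemma rho_odd (r h : ℕ) (hr : r * (r - 1) + 2 ≤ 2 * (h * h)) : 2 * r ≤ 3 * h := by
  by_contra hc
  push Not at hc
  rcases Nat.eq_zero_or_pos r with h0 | h0
  · omega
  obtain ⟨s, rfl⟩ : ∃ s, r = s + 1 := ⟨r - 1, by omega⟩
  have h1 : s + 1 - 1 = s := by omega
  rw [h1] at hr
  have h2 : 3 * h ≤ 2 * s + 1 := by omega
  have h3 : (3 * h) * (3 * h) ≤ (2 * s + 1) * (2 * s + 1) := Nat.mul_le_mul h2 h2
  nlinarith

/-- the sum of claim (2) -/
def SS (N : ℕ → ℕ) (D : ℕ) : ℕ := ∑ f ∈ Finset.Icc 3 D, 3 * N f * 2 ^ (D - f)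

lemma SS_succ (N : ℕ → ℕ) (D : ℕ) (hD : 2 ≤ D) : SS N (D + 1) = 2 * SS N D + 3 * N (D + 1) := by
  unfold SS
  rw [Finset.sum_Icc_succ_top (by omega : 3 ≤ D + 1), Nat.sub_self, pow_zero, mul_one,
    Finset.mul_sum]
  congr 1
  apply Finset.sum_congr rfl
  intro f hf
  rw [Finset.mem_Icc] at hf
  rw [Nat.sub_add_comm hf.2, pow_succ]
  ring

lemma SS_two (N : ℕ → ℕ) (D : ℕ) (hD : D ≤ 2) : SS N D = 0 := by
  unfold SS
  rw [Finset.Icc_eq_empty (by omega), Finset.sum_empty]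

lemma TT_eq (N : ℕ → ℕ) (E : ℕ) (hE : 2 ≤ E) :
    ∑ f ∈ Finset.Icc 3 (E + 2), 3 * N f * 2 ^ (E + 2 - 2 - f)
      = SS N E + 3 * N (E + 1) + 3 * N (E + 2) := by
  rw [Finset.sum_Icc_succ_top (by omega : 3 ≤ (E + 1) + 1),
    Finset.sum_Icc_succ_top (by omega : 3 ≤ E + 1)]
  have h1 : E + 2 - 2 - (E + 1) = 0 := by omega
  have h2 : E + 2 - 2 - (E + 1 + 1) = 0 := by omega
  rw [h1, h2, pow_zero, mul_one, mul_one]
  have h3 : E + 2 - 2 = E := by omega
  rw [h3]
  rfl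

theorem hNUM : StNUM := by
  intro N ρ h1 h24 h2
  -- bounds for the values `ρ`
  have hev : ∀ g : ℕ, ρ (2 * g + 2) ≤ 2 * 2 ^ g := by
    intro g
    apply rho_even
    have := h2 (2 * g + 2) (by omega)
    have e : (2 : ℕ) ^ (2 * g + 2) = 2 * 2 ^ g * (2 * 2 ^ g) := by
      rw [pow_add, pow_mul]
      rw [show (2 : ℕ) ^ 2 = 2 * 2 by norm_num, mul_pow]
      ring
    rw [← e]
    exact this
  have hod : ∀ g : ℕ, ρ (2 * g + 3) ≤ 3 * 2 ^ g := by
    intro g
    have := h2 (2 * g + 3) (by omega)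
    have e : (2 : ℕ) ^ (2 * g + 3) = 2 * (2 * 2 ^ g * (2 * 2 ^ g)) := by
      rw [pow_add, pow_mul]
      rw [show (2 : ℕ) ^ 2 = 2 * 2 by norm_num, mul_pow]
      ring
    rw [e] at this
    have := rho_odd _ _ this
    omega
  have hNe : ∀ g : ℕ, (2 * g + 2) * N (2 * g + 2) ≤ 2 * 2 ^ g := fun g =>
    (h1 (2 * g + 2) (by omega)).trans (hev g)
  have hNo : ∀ g : ℕ, (2 * g + 3) * N (2 * g + 3) ≤ 3 * 2 ^ g := fun g =>
    (h1 (2 * g + 3) (by omega)).trans (hod g)
  have hN2 : N 2 ≤ 1 := by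
    have := hNe 0
    norm_num at this
    omega
  have hN3 : N 3 ≤ 1 := by
    have := hNo 0
    norm_num at this
    omega
  have hN4 : N 4 ≤ 1 := by
    have := hNe 1
    norm_num at this
    omega
  have hN5 : N 5 ≤ 1 := by
    have := hNo 1
    norm_num at this
    omega
  have hρ4 : ρ 4 ≤ 4 := by
    have := hev 1
    norm_num at this
    omega
  -- bounds for `N`, `g ≥ 1`
  have hNo5 : ∀ g : ℕ, 1 ≤ g → 5 * N (2 * g + 3) ≤ 3 * 2 ^ g := fun g hg =>
    (Nat.mul_le_mul_right _ (by omega : 5 ≤ 2 * g + 3)).trans (hNo g)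
  have hNe6 : ∀ g : ℕ, 1 ≤ g → 6 * N (2 * g + 4) ≤ 4 * 2 ^ g := by
    intro g hg
    have h := (Nat.mul_le_mul_right (N (2 * (g + 1) + 2)) (by omega : 6 ≤ 2 * (g + 1) + 2)).trans
      (hNe (g + 1))
    rw [show 2 * (g + 1) + 2 = 2 * g + 4 by ring, pow_succ] at h
    linarith
  have hNo7 : ∀ g : ℕ, 1 ≤ g → 7 * N (2 * g + 5) ≤ 6 * 2 ^ g := by
    intro g hg
    have h := (Nat.mul_le_mul_right (N (2 * (g + 1) + 3)) (by omega : 7 ≤ 2 * (g + 1) + 3)).trans
      (hNo (g + 1))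
    rw [show 2 * (g + 1) + 3 = 2 * g + 5 by ring, pow_succ] at h
    linarith
  have hS3 : SS N 3 = 3 * N 3 := by
    rw [SS_succ N 2 le_rfl, SS_two N 2 le_rfl]
    ring
  have hS4 : SS N 4 = 6 * N 3 + 3 * N 4 := by
    rw [SS_succ N 3 (by omega), hS3]
    ring
  -- the induction
  have hind : ∀ c : ℕ, 80 * SS N 4 + 448 ≤ 4 * c → ∀ g : ℕ,
      80 * SS N (2 * (g + 1) + 2) + 224 * 2 ^ (g + 1) ≤ c * 4 ^ (g + 1) := by
    intro c hc g
    induction g with
    | zero =>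
      norm_num
      omega
    | succ g ih =>
      have e1 : SS N (2 * (g + 1) + 2 + 1) = 2 * SS N (2 * (g + 1) + 2) +
          3 * N (2 * (g + 1) + 3) := SS_succ N _ (by omega)
      have e2 : SS N (2 * (g + 1 + 1) + 2) = 2 * SS N (2 * (g + 1) + 2 + 1) +
          3 * N (2 * (g + 1) + 4) := SS_succ N _ (by omega)
      have b1 := hNo5 (g + 1) (by omega)
      have b2 := hNe6 (g + 1) (by omega)
      rw [e2, e1]
      rw [pow_succ 2 (g + 1), pow_succ 4 (g + 1)]
      generalize 2 ^ (g + 1) = m at *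
      generalize 4 ^ (g + 1) = M at *
      generalize N (2 * (g + 1) + 3) = a at *
      generalize N (2 * (g + 1) + 4) = b at *
      nlinarith
  have h4 : ∀ g : ℕ, (2 : ℕ) ^ (2 * g + 2) = 4 * 4 ^ g := by
    intro g
    rw [pow_add, pow_mul]
    norm_num
    ring
  have h5 : ∀ g : ℕ, (2 : ℕ) ^ (2 * g + 3) = 8 * 4 ^ g := by
    intro g
    rw [pow_add, pow_mul]
    norm_num
    ring
  have hle : ∀ g : ℕ, (2 : ℕ) ^ (g + 1) * 2 ≤ 4 ^ (g + 1) := by
    intro g
    rw [show (4 : ℕ) = 2 * 2 by norm_num, mul_pow]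
    apply Nat.mul_le_mul_left
    rw [pow_succ]
    have : 1 ≤ 2 ^ g := Nat.one_le_two_pow
    omega
  refine ⟨hN2, ?_, ?_⟩
  · intro D
    change SS N D < 2 ^ D
    rcases Nat.lt_or_ge D 3 with hD | hD
    · rw [SS_two N D (by omega)]
      positivity
    rcases Nat.eq_or_lt_of_le hD with hD | hD
    · rw [← hD, hS3]
      norm_num
      omega
    have hI := hind 292 (by rw [hS4]; omega)
    obtain ⟨g, hg | hg⟩ : ∃ g, D = 2 * (g + 1) + 2 ∨ D = 2 * (g + 1) + 3 :=
      ⟨(D - 4) / 2, by omega⟩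
    · rw [hg, h4]
      have := hI g
      have h0 : 0 < 4 ^ (g + 1) := by positivity
      generalize 4 ^ (g + 1) = M at *
      omega
    · have e1 : SS N (2 * (g + 1) + 3) = 2 * SS N (2 * (g + 1) + 2) +
          3 * N (2 * (g + 1) + 3) := SS_succ N _ (by omega)
      rw [hg, h5, e1]
      have := hI g
      have b1 := hNo5 (g + 1) (by omega)
      have h0 : 0 < 4 ^ (g + 1) := by positivity
      generalize 4 ^ (g + 1) = M at *
      generalize 2 ^ (g + 1) = m at *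
      generalize N (2 * (g + 1) + 3) = a at *
      generalize SS N (2 * (g + 1) + 2) = S at *
      omega
  · intro h21 D hD
    have hN40 : N 4 = 0 := by omega
    obtain ⟨E, rfl⟩ : ∃ E, D = E + 2 := ⟨D - 2, by omega⟩
    rw [TT_eq N E (by omega)]
    have hEE : E + 2 - 2 = E := by omega
    rw [hEE]
    rcases Nat.eq_or_lt_of_le (show 2 ≤ E by omega) with hE | hE
    · rw [← hE, SS_two N 2 le_rfl]
      norm_num
      omega
    rcases Nat.eq_or_lt_of_le (show 3 ≤ E by omega) with hE | hE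
    · rw [← hE, hS3]
      norm_num
      omega
    have hI := hind 232 (by rw [hS4]; omega)
    obtain ⟨g, hg | hg⟩ : ∃ g, E = 2 * (g + 1) + 2 ∨ E = 2 * (g + 1) + 3 :=
      ⟨(E - 4) / 2, by omega⟩
    · rw [hg, h4]
      have := hI g
      have b1 := hNo5 (g + 1) (by omega)
      have b2 := hNe6 (g + 1) (by omega)
      have h0 : 0 < 4 ^ (g + 1) := by positivity
      have h6 := hle g
      change SS N (2 * (g + 1) + 2) + 3 * N (2 * (g + 1) + 3) + 3 * N (2 * (g + 1) + 4) < _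
      generalize 4 ^ (g + 1) = M at *
      generalize 2 ^ (g + 1) = m at *
      generalize N (2 * (g + 1) + 3) = a at *
      generalize N (2 * (g + 1) + 4) = b at *
      generalize SS N (2 * (g + 1) + 2) = S at *
      omega
    · have e1 : SS N (2 * (g + 1) + 3) = 2 * SS N (2 * (g + 1) + 2) +
          3 * N (2 * (g + 1) + 3) := SS_succ N _ (by omega)
      rw [hg, h5, e1]
      have := hI g
      have b1 := hNo5 (g + 1) (by omega)
      have b2 := hNe6 (g + 1) (by omega)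
      have b3 := hNo7 (g + 1) (by omega)
      have h0 : 0 < 4 ^ (g + 1) := by positivity
      have h6 := hle g
      change 2 * SS N (2 * (g + 1) + 2) + 3 * N (2 * (g + 1) + 3) + 3 * N (2 * (g + 1) + 4)
        + 3 * N (2 * (g + 1) + 5) < _
      generalize 4 ^ (g + 1) = M at *
      generalize 2 ^ (g + 1) = m at *
      generalize N (2 * (g + 1) + 3) = a at *
      generalize N (2 * (g + 1) + 4) = b at *
      generalize N (2 * (g + 1) + 5) = d at *
      generalize SS N (2 * (g + 1) + 2) = S at *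
      omega

end Pool.Agent.Helper80.C2
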